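import Pool.Agent.Lib.MP_859dd5_ag.K.Graded

/-!
# The Milnor K-ring modulo an integer
-/

namespace UnrG

universe u v w

open Polynomial Finset
open scoped Classical

variable {m : ℕ} {K : Type u} [Field K]

section Def

variable (m : ℕ) (K : Type u) [Field K]

/-- The defining relations of the Milnor K-ring with `ZMod m` coefficients: symbols are
multiplicative, and the Steinberg relation. -/
inductive MKRel : FreeAlgebra (ZMod m) Kˣ → FreeAlgebra (ZMod m) Kˣ → Prop
  | mul (a b : Kˣ) :
      MKRel (FreeAlgebra.ι (ZMod m) (a * b)) (FreeAlgebra.ι (ZMod m) a + FreeAlgebra.ι (ZMod m) b)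
  | steinberg (a b : Kˣ) (h : (a : K) + (b : K) = 1) :
      MKRel (FreeAlgebra.ι (ZMod m) a * FreeAlgebra.ι (ZMod m) b) 0

/-- The Milnor K-ring of the field `K` with coefficients in `ZMod m` (`m = 0` gives the integral
Milnor K-ring). -/
def MK : Type u := RingQuot (MKRel m K)

set_option warn.classDefReducibility false in
/-- The ring structure of the Milnor K-ring: that of the quotient. -/
noncomputable def MK.ring : Ring (MK m K) := RingQuot.instRing (MKRel m K)

noncomputable instance MK.instRing : Ring (MK m K) := MK.ring m K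

set_option warn.classDefReducibility false in
/-- The algebra structure of the Milnor K-ring: that of the quotient. -/
noncomputable def MK.algebra : Algebra (ZMod m) (MK m K) := RingQuot.instAlgebra (MKRel m K)

noncomputable instance MK.instAlgebra : Algebra (ZMod m) (MK m K) := MK.algebra m K

/-- The quotient map from the free algebra. -/
noncomputable def MK.mk : FreeAlgebra (ZMod m) Kˣ →ₐ[ZMod m] MK m K :=
  RingQuot.mkAlgHom (ZMod m) (MKRel m K)

variable {K}

/-- The symbol `{a}` of a unit `a`. -/
noncomputable def MK.sym (a : Kˣ) : MK m K := MK.mk m K (FreeAlgebra.ι (ZMod m) a)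

variable (K) in
/-- The part of degree `j` of the Milnor K-ring. -/
noncomputable def MK.deg (j : ℕ) : Submodule (ZMod m) (MK m K) :=
  Submodule.span (ZMod m) (Set.range (MK.sym m : Kˣ → MK m K)) ^ j

end Def

variable {m : ℕ} {K : Type u} [Field K]

/-- The class `ξ` is unramified: for every discrete valuation ring `A` of `K` with field of
fractions `K` it lies in the subring generated by the symbols of the units of `A`. -/
def MK.Unr (ξ : MK m K) : Prop :=
  ∀ A : ValuationSubring K, IsDiscreteValuationRing A →
    ξ ∈ Algebra.adjoin (ZMod m) (Set.range fun u : Aˣ =>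
      (MK.sym m (Units.map (A.subtype : A →* K) u) : MK m K))

lemma MK.mk_rel {x y : FreeAlgebra (ZMod m) Kˣ} (h : MKRel m K x y) :
    MK.mk m K x = MK.mk m K y :=
  RingQuot.mkAlgHom_rel (ZMod m) h

lemma MK.sym_mul (a b : Kˣ) : MK.sym m (a * b) = MK.sym m a + MK.sym m b := by
  unfold MK.sym
  rw [← map_add]
  exact MK.mk_rel (MKRel.mul a b)

lemma MK.sym_steinberg (a b : Kˣ) (h : (a : K) + (b : K) = 1) :
    MK.sym m a * MK.sym m b = 0 := by
  unfold MK.sym
  rw [← map_mul, MK.mk_rel (MKRel.steinberg a b h), map_zero]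

/-- The universal property. -/
noncomputable def MK.lift {A : Type v} [Ring A] [Algebra (ZMod m) A] (f : Kˣ → A)
    (hmul : ∀ a b, f (a * b) = f a + f b)
    (hst : ∀ a b : Kˣ, (a : K) + (b : K) = 1 → f a * f b = 0) :
    MK m K →ₐ[ZMod m] A :=
  RingQuot.liftAlgHom (ZMod m) (s := MKRel m K)
    ⟨FreeAlgebra.lift (ZMod m) f, by
      intro x y h
      cases h with
      | mul a b => simp [hmul]
      | steinberg a b h => simp [hst a b h]⟩

@[simp] lemma MK.lift_sym {A : Type v} [Ring A] [Algebra (ZMod m) A] (f : Kˣ → A) (hmul hst)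
    (a : Kˣ) : MK.lift (m := m) f hmul hst (MK.sym m a) = f a := by
  unfold MK.lift MK.sym
  erw [RingQuot.liftAlgHom_mkAlgHom_apply]
  simp

lemma MK.algHom_ext {A : Type v} [Ring A] [Algebra (ZMod m) A] {f g : MK m K →ₐ[ZMod m] A}
    (h : ∀ a : Kˣ, f (MK.sym m a) = g (MK.sym m a)) : f = g := by
  apply RingQuot.ringQuot_ext' (ZMod m)
  apply FreeAlgebra.hom_ext
  funext a
  exact h a

/-- Functoriality of the Milnor K-ring. -/
noncomputable def MK.map (m : ℕ) {L : Type v} [Field L] (f : K →+* L) :
    MK m K →ₐ[ZMod m] MK m L :=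
  MK.lift (fun a => MK.sym m (Units.map (f : K →* L) a))
    (fun a b => by rw [map_mul, MK.sym_mul])
    (fun a b h => MK.sym_steinberg _ _ (by
      simpa only [Units.coe_map, MonoidHom.coe_coe, map_add, map_one] using congrArg f h))

/-- The projection to the reduced Milnor K-ring. -/
noncomputable def MK.red (m : ℕ) (K : Type u) [Field K] : MK m K →ₐ[ZMod m] KM m K :=
  MK.lift (fun a => usym m a) usym_mul usym_steinberg

@[simp] lemma MK.red_sym (a : Kˣ) : MK.red m K (MK.sym m a) = usym m a := MK.lift_sym _ _ _ a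

end UnrG
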