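import Pool.Agent.Lib.MP_859dd5_ag.Mg.G054

/-!
# The homogeneous parts of the Milnor K-ring
-/

namespace UnrG

universe u v w

open Polynomial
open scoped Classical

variable {m : ℕ} {K : Type u} {L : Type v} [Field K] [Field L]

/-- The endomorphism of the Milnor K-ring multiplying symbols `{a}` by `c`. -/
noncomputable def sc (K : Type u) [Field K] (c : ZMod m) : KM m K →ₐ[ZMod m] KM m K :=
  lift (fun a => c • usym m a) (fun a b => by rw [usym_mul, smul_add])
    (fun a b h => by rw [smul_mul_smul_comm, usym_steinberg a b h, smul_zero])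
    (by rw [usym_neg_one, smul_zero])

@[simp] lemma sc_sym (c : ZMod m) (a : K) : sc K c (sym m a) = c • sym m a := by
  by_cases ha : a = 0
  · simp [ha]
  rw [sym_of_ne ha, sc, lift_usym]

lemma map_pow_eq_sc (f : K →+* K) (q : ℕ) (hf : ∀ x, f x = x ^ q) :
    KM.map m f = sc K (q : ZMod m) := by
  apply algHom_ext'
  intro a ha
  rw [KM.map_sym, sc_sym, hf, sym_pow ha, Nat.cast_smul_eq_nsmul]

/-- The part of degree `j` of the Milnor K-ring modulo `m`. -/
noncomputable def KM.deg (m : ℕ) (K : Type u) [Field K] (j : ℕ) : Submodule (ZMod m) (KM m K) :=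
  Submodule.span (ZMod m) (Set.range (sym m : K → KM m K)) ^ j

lemma KM.deg_zero_one : (1 : KM m K) ∈ KM.deg m K 0 := by
  unfold KM.deg
  rw [pow_zero]
  exact Submodule.one_le.mp le_rfl

lemma KM.sym_mul_mem {j : ℕ} (a : K) {ξ : KM m K} (h : ξ ∈ KM.deg m K j) :
    sym m a * ξ ∈ KM.deg m K (j + 1) := by
  unfold KM.deg at *
  rw [pow_succ']
  exact Submodule.mul_mem_mul (Submodule.subset_span ⟨a, rfl⟩) h

/-- Induction principle. -/
lemma KM.deg_induction {P : ℕ → KM m K → Prop} (h0 : ∀ r : ZMod m, P 0 (algebraMap _ _ r))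
    (hadd : ∀ j x y, P j x → P j y → P j (x + y)) (hzero : ∀ j, P j 0)
    (hsmul : ∀ j (r : ZMod m) x, P j x → P j (r • x))
    (hmul : ∀ j (a : K) (x : KM m K), P j x → P (j + 1) (sym m a * x)) (j : ℕ) {x : KM m K}
    (hx : x ∈ KM.deg m K j) : P j x := by
  induction j generalizing x with
  | zero =>
    unfold KM.deg at hx
    rw [pow_zero, Submodule.mem_one] at hx
    obtain ⟨r, rfl⟩ := hx
    exact h0 r
  | succ j ih =>
    unfold KM.deg at hx
    rw [pow_succ'] at hx
    induction hx using Submodule.mul_induction_on' with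
    | mem_mul_mem a ha b hb =>
      induction ha using Submodule.span_induction with
      | mem a ha =>
        obtain ⟨a, rfl⟩ := ha
        exact hmul j a b (ih hb)
      | zero => rw [zero_mul]; exact hzero _
      | add a a' _ _ h h' => rw [add_mul]; exact hadd _ _ _ h h'
      | smul r a _ h => rw [smul_mul_assoc]; exact hsmul _ _ _ h
    | add a _ b _ ha hb => exact hadd _ _ _ ha hb

lemma KM.deg_map (f : K →+* L) {j : ℕ} {ξ : KM m K} (h : ξ ∈ KM.deg m K j) :
    KM.map m f ξ ∈ KM.deg m L j := by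
  refine KM.deg_induction (P := fun j ξ => KM.map m f ξ ∈ KM.deg m L j) ?_ ?_ ?_ ?_ ?_ j h
  · intro r
    rw [AlgHom.commutes, Algebra.algebraMap_eq_smul_one]
    exact Submodule.smul_mem _ _ KM.deg_zero_one
  · intro j x y hx hy
    rw [map_add]; exact add_mem hx hy
  · intro j
    rw [map_zero]; exact zero_mem _
  · intro j r x hx
    rw [map_smul]; exact Submodule.smul_mem _ _ hx
  · intro j a x hx
    rw [map_mul, KM.map_sym]
    exact KM.sym_mul_mem _ hx

lemma KM.deg_sc (c : ZMod m) {j : ℕ} {ξ : KM m K} (h : ξ ∈ KM.deg m K j) :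
    sc K c ξ = c ^ j • ξ := by
  refine KM.deg_induction (P := fun j ξ => sc K c ξ = c ^ j • ξ) ?_ ?_ ?_ ?_ ?_ j h
  · intro r
    rw [AlgHom.commutes, pow_zero, one_smul]
  · intro j x y hx hy
    rw [map_add, hx, hy, smul_add]
  · intro j
    rw [map_zero, smul_zero]
  · intro j r x hx
    rw [map_smul, hx, smul_smul, smul_smul, mul_comm]
  · intro j a x hx
    rw [map_mul, sc_sym, hx, smul_mul_smul_comm, pow_succ']

/-- The Frobenius on the part of degree `j`. -/
lemma KM.deg_frob {f : K →+* K} {q : ℕ} (hf : ∀ x, f x = x ^ q) {j : ℕ} {ξ : KM m K}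
    (h : ξ ∈ KM.deg m K j) : KM.map m f ξ = ((q : ℤ) ^ j) • ξ := by
  rw [map_pow_eq_sc f q hf, KM.deg_sc _ h, ← Int.cast_smul_eq_zsmul (ZMod m)]
  push_cast
  rfl

/-- The grading of the Milnor K-ring as a homomorphism to a polynomial ring. -/
noncomputable def KM.gr (m : ℕ) (K : Type u) [Field K] : KM m K →ₐ[ZMod m] (KM m K)[X] :=
  lift (fun a => C (usym m a) * X) (fun a b => by rw [usym_mul, map_add, add_mul])
    (fun a b h => by
      rw [mul_assoc, ← mul_assoc X, X_mul_C, mul_assoc, ← mul_assoc, ← C_mul,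
        usym_steinberg a b h, C_0, zero_mul])
    (by rw [usym_neg_one, C_0, zero_mul])

lemma KM.gr_sym (a : K) : KM.gr m K (sym m a) = C (sym m a) * X := by
  by_cases ha : a = 0
  · simp [ha]
  rw [sym_of_ne ha, KM.gr, lift_usym]

lemma KM.gr_algebraMap (r : ZMod m) :
    KM.gr m K (algebraMap (ZMod m) (KM m K) r) = C (algebraMap (ZMod m) (KM m K) r) := by
  rw [AlgHom.commutes]; rfl

lemma KM.gr_smul (r : ZMod m) (x : (KM m K)[X]) : r • x = C (algebraMap (ZMod m) (KM m K) r) * x := by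
  rw [Algebra.smul_def]; rfl

lemma KM.deg_gr {j : ℕ} {ξ : KM m K} (h : ξ ∈ KM.deg m K j) :
    KM.gr m K ξ = C ξ * X ^ j := by
  refine KM.deg_induction (P := fun j ξ => KM.gr m K ξ = C ξ * X ^ j) ?_ ?_ ?_ ?_ ?_ j h
  · intro r
    rw [KM.gr_algebraMap, pow_zero, mul_one]
  · intro j x y hx hy
    rw [map_add, hx, hy, map_add, add_mul]
  · intro j
    rw [map_zero, map_zero, zero_mul]
  · intro j r x hx
    rw [map_smul, hx, KM.gr_smul, Algebra.smul_def, C_mul, mul_assoc]
  · intro j a x hx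
    rw [map_mul, KM.gr_sym, hx, C_mul, mul_assoc, ← mul_assoc X, X_mul_C, mul_assoc,
      ← pow_succ', mul_assoc]

/-- A homogeneous class of degree at least two that is a sum of a constant and a symbol
vanishes. -/
lemma KM.eq_zero_of_deg {j : ℕ} (hj : 2 ≤ j) {ξ : KM m K} (h : ξ ∈ KM.deg m K j) {r : ZMod m}
    {a : K} (he : ξ = algebraMap _ _ r + sym m a) : ξ = 0 := by
  have h1 := KM.deg_gr h
  rw [he, map_add, KM.gr_algebraMap, KM.gr_sym, ← he] at h1
  have h2 := congrArg (fun q : (KM m K)[X] => q.coeff j) h1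
  simp only [coeff_add, coeff_C, coeff_C_mul, coeff_X, coeff_X_pow] at h2
  rw [if_neg (by omega), if_neg (by omega)] at h2
  simp at h2
  exact h2.symm

/-- In a field whose non-zero elements are roots of unity, the Milnor K-ring is trivial in degrees
at least two. -/
lemma sym_mul_sym_of_torsion (hm : Any m) {a b : K} (ha : ∃ n > 0, a ^ n = 1)
    (hb : ∃ n > 0, b ^ n = 1) : sym m a * sym m b = 0 := by
  obtain ⟨k, hk, ha⟩ := ha
  obtain ⟨l, hl, hb⟩ := hb
  have hkl : k * l ≠ 0 := (Nat.mul_pos hk hl).ne'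
  have : NeZero (k * l) := ⟨hkl⟩
  have ha0 : a ≠ 0 := by
    rintro rfl
    rw [zero_pow hk.ne'] at ha
    exact zero_ne_one ha
  have hb0 : b ≠ 0 := by
    rintro rfl
    rw [zero_pow hl.ne'] at hb
    exact zero_ne_one hb
  have ha' : Units.mk0 a ha0 ∈ rootsOfUnity (k * l) K := by
    rw [mem_rootsOfUnity']
    change a ^ (k * l) = 1
    rw [pow_mul, ha, one_pow]
  have hb' : Units.mk0 b hb0 ∈ rootsOfUnity (k * l) K := by
    rw [mem_rootsOfUnity']
    change b ^ (k * l) = 1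
    rw [mul_comm, pow_mul, hb, one_pow]
  obtain ⟨g, hg⟩ := IsCyclic.exists_generator (α := rootsOfUnity (k * l) K)
  obtain ⟨i, hi⟩ := Subgroup.mem_zpowers_iff.mp (hg ⟨_, ha'⟩)
  obtain ⟨i', hi'⟩ := Subgroup.mem_zpowers_iff.mp (hg ⟨_, hb'⟩)
  have e1 : a = ((g : Kˣ) : K) ^ i := by
    have := congrArg (fun z : rootsOfUnity (k * l) K => ((z : Kˣ) : K)) hi
    simpa using this.symm
  have e2 : b = ((g : Kˣ) : K) ^ i' := by
    have := congrArg (fun z : rootsOfUnity (k * l) K => ((z : Kˣ) : K)) hi'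
    simpa using this.symm
  have hg0 : ((g : Kˣ) : K) ≠ 0 := (g : Kˣ).ne_zero
  rw [e1, e2, sym_zpow hg0, sym_zpow hg0, smul_mul_smul_comm, sym_sq hm, smul_zero]

lemma KM.of_torsion (hm : Any m) (hK : ∀ a : K, a ≠ 0 → ∃ n > 0, a ^ n = 1) (ξ : KM m K) :
    ∃ (r : ZMod m) (a : K), a ≠ 0 ∧ ξ = algebraMap _ _ r + sym m a := by
  have hsm : ∀ (c : ZMod m) (a : K), a ≠ 0 →
      ∃ a' : K, a' ≠ 0 ∧ c • sym m a = sym m a' := by
    intro c a ha
    obtain ⟨z, rfl⟩ := ZMod.intCast_surjective c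
    exact ⟨a ^ z, zpow_ne_zero _ ha, by rw [sym_zpow ha, Int.cast_smul_eq_zsmul]⟩
  refine KM.induction (P := fun ξ => ∃ (r : ZMod m) (a : K), a ≠ 0 ∧
    ξ = algebraMap _ _ r + sym m a) ?_ ?_ ?_ ?_ ξ
  · intro r
    exact ⟨r, 1, one_ne_zero, by rw [sym_one, add_zero]⟩
  · rintro _ _ ⟨r, a, ha, rfl⟩ ⟨r', a', ha', rfl⟩
    refine ⟨r + r', a * a', mul_ne_zero ha ha', ?_⟩
    rw [map_add, sym_mul ha ha']
    abel
  · rintro c _ ⟨r, a, ha, rfl⟩
    obtain ⟨a', ha', h⟩ := hsm c a ha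
    refine ⟨c * r, a', ha', ?_⟩
    rw [smul_add, h, map_mul, Algebra.smul_def]
  · rintro b _ hb ⟨r, a, ha, rfl⟩
    obtain ⟨b', hb', h⟩ := hsm r b hb
    refine ⟨0, b', hb', ?_⟩
    rw [mul_add, sym_mul_sym_of_torsion hm (hK b hb) (hK a ha), add_zero, map_zero, zero_add,
      ← h, Algebra.smul_def, Algebra.commutes]

/-- The projection to the part of degree `j`. -/
noncomputable def KM.proj (m : ℕ) (K : Type u) [Field K] (j : ℕ) : KM m K →+ KM m K :=
  (AddMonoidHom.mk' (fun q : (KM m K)[X] => q.coeff j) (fun a b => coeff_add a b j)).comp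
    (KM.gr m K : KM m K →+ (KM m K)[X])

lemma KM.proj_apply (j : ℕ) (ξ : KM m K) : KM.proj m K j ξ = (KM.gr m K ξ).coeff j := rfl

lemma KM.proj_sym_mul_zero (a : K) (x : KM m K) : KM.proj m K 0 (sym m a * x) = 0 := by
  rw [KM.proj_apply, map_mul, KM.gr_sym, mul_assoc, X_mul, coeff_C_mul, coeff_mul_X_zero,
    mul_zero]

lemma KM.proj_sym_mul_succ (j : ℕ) (a : K) (x : KM m K) :
    KM.proj m K (j + 1) (sym m a * x) = sym m a * KM.proj m K j x := by
  rw [KM.proj_apply, map_mul, KM.gr_sym, mul_assoc, X_mul, coeff_C_mul, coeff_mul_X,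
    KM.proj_apply]

lemma KM.proj_algebraMap (j : ℕ) (r : ZMod m) : KM.proj m K j (algebraMap _ _ r) =
    if j = 0 then algebraMap (ZMod m) (KM m K) r else 0 := by
  rw [KM.proj_apply, KM.gr_algebraMap, coeff_C]

lemma KM.proj_smul (j : ℕ) (r : ZMod m) (x : KM m K) :
    KM.proj m K j (r • x) = r • KM.proj m K j x := by
  rw [KM.proj_apply, map_smul, KM.gr_smul, coeff_C_mul, ← Algebra.smul_def, KM.proj_apply]

lemma KM.proj_mem (j : ℕ) (ξ : KM m K) : KM.proj m K j ξ ∈ KM.deg m K j := by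
  induction ξ using KM.induction generalizing j with
  | h0 r =>
    rw [KM.proj_algebraMap]
    split_ifs with h
    · rw [h, Algebra.algebraMap_eq_smul_one]
      exact Submodule.smul_mem _ _ KM.deg_zero_one
    · exact zero_mem _
  | hadd x y hx hy =>
    rw [map_add]
    exact add_mem (hx j) (hy j)
  | hsmul r x hx =>
    rw [KM.proj_smul]
    exact Submodule.smul_mem _ _ (hx j)
  | hmul a x ha hx =>
    cases j with
    | zero => rw [KM.proj_sym_mul_zero]; exact zero_mem _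
    | succ j => rw [KM.proj_sym_mul_succ]; exact KM.sym_mul_mem _ (hx j)

lemma KM.proj_eq {j : ℕ} {ξ : KM m K} (h : ξ ∈ KM.deg m K j) : KM.proj m K j ξ = ξ := by
  change (KM.gr m K ξ).coeff j = ξ
  rw [KM.deg_gr h, coeff_C_mul_X_pow, if_pos rfl]

lemma KM.proj_map (f : K →+* L) (j : ℕ) (ξ : KM m K) :
    KM.proj m L j (KM.map m f ξ) = KM.map m f (KM.proj m K j ξ) := by
  induction ξ using KM.induction generalizing j with
  | h0 r =>
    rw [AlgHom.commutes, KM.proj_algebraMap, KM.proj_algebraMap]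
    split_ifs with h
    · rw [AlgHom.commutes]
    · rw [map_zero]
  | hadd x y hx hy =>
    rw [map_add, map_add, map_add, map_add, hx, hy]
  | hsmul r x hx =>
    rw [map_smul, KM.proj_smul, KM.proj_smul, map_smul, hx]
  | hmul a x ha hx =>
    rw [map_mul, KM.map_sym]
    cases j with
    | zero => rw [KM.proj_sym_mul_zero, KM.proj_sym_mul_zero, map_zero]
    | succ j => rw [KM.proj_sym_mul_succ, KM.proj_sym_mul_succ, map_mul, KM.map_sym, hx]

end UnrG
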