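import Pool.Agent.Lib.MP_859dd5_ag.Mg.G003
import Pool.Agent.Lib.MP_859dd5_ag.Mg.G001
import Pool.Agent.Lib.MP_859dd5_ag.Mg.G076

/-!
# Minimal exponents
-/

namespace UnrG

universe u v w

open Polynomial Finset
open scoped Classical

variable {m : ℕ} {𝔽 : Type w} [Field 𝔽] [Fintype 𝔽] (b : Base 𝔽)

/-- endomorphisms fixing the coordinates fix `fieldK` -/
private lemma D10_fix {F L : Type u} [Field F] [Field L] [Algebra F L] {r n : ℕ}
    {t : Fin r → L} {a x : Fin (n + 2) → L} (h : DiagData b t (F := F) a x)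
    {E : IntermediateField F L} (g : E →+* E)
    (h1 : ∀ (c : F) (e : E), (e : L) = algebraMap F L c → g e = e)
    (h2 : ∀ k (e : E), (e : L) = t k → g e = e)
    (h3 : ∀ j (e : E), (e : L) = coordU b.N a x j → g e = e)
    (htE : ∀ k, t k ∈ E) (hUE : ∀ j, coordU b.N a x j ∈ E)
    (e : E) (he : (e : L) ∈ fieldK b F t x) : g e = e := by
  let T : Subfield L := (g.eqLocusField (RingHom.id E)).map (algebraMap E L)
  let T' : IntermediateField F L := T.toIntermediateField (fun c =>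
    ⟨algebraMap F E c, h1 c _ rfl, rfl⟩)
  have hle : IntermediateField.adjoin F (Set.range t ∪ Set.range (coordU b.N a x)) ≤ T' := by
    rw [IntermediateField.adjoin_le_iff]
    rintro _ (⟨k, rfl⟩ | ⟨j, rfl⟩)
    · exact ⟨⟨t k, htE k⟩, h2 k _ rfl, rfl⟩
    · exact ⟨⟨coordU b.N a x j, hUE j⟩, h3 j _ rfl, rfl⟩
  obtain ⟨e', he', hee⟩ := hle (fieldK_le_coord b h he)
  have h4 : e' = e := Subtype.ext hee
  rw [← h4]
  exact he'

/-- Minimal exponents. Proof: `C = C₀ * ((N ^ (n + 1))!) ^ 2`, with `C₀` from `prod_main` for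
`expB α`, `expA α` (`MinZero.exp`). Take `z`, `B` from `exists_descent` and the embedding from
`exists_embedding`; `RelFrob` holds for the restriction of `σ` (`SigmaL.exists_restrict`,
`SigmaL.coordU`), and `NewCls` by the last property of `exists_descent`: a homomorphism `g`
fixing `F`, `t`, `coordU` fixes `fieldK` (`fieldK_le_coord`), and `g W = ζ ^ k W` for
`W = κ c wmon` gives `g wmon = ζ ^ k wmon`. So `C₀ • z = 0` and `C₀ * B ^ 2 • vv α ξ = 0`. -/
theorem vv_eq_zero_of_min {n : ℕ} {w : ZMod b.N → ℤ} (hw : Weight b.N w)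
    {α : Fin (n + 2) → ZMod b.N} (hα : MinZero α)
    (hn : n = 4 → ∀ χ : MulChar 𝔽 ℂ, orderOf χ = b.N →
      ∏ j : Fin n, jacobiSum (χ ^ expB α j) (χ ^ expA α j) ≠ (b.q : ℂ) ^ 2) :
    ∃ C : ℕ, 0 < C ∧ ∀ (m : ℕ) (F L : Type u) [Field F] [Field L] [Algebra F L] (ι : 𝔽 →+* F)
      (r : ℕ) (t : Fin r → L) (a x : Fin (n + 2) → L) (_ : DiagData b t (F := F) a x) (β : L)
      (_ : β ∈ IntermediateField.adjoin F (Set.range t))
      (_ : ∏ i, a i ^ (α i).val = β ^ b.N) (σ : L →+* L) (_ : SigmaL b F t a x σ)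
      (_ : σ β = β) (ξ : KM m L) (_ : Unr ξ) (_ : ξ ∈ KM.deg m L 3)
      (_ : KM.map m σ ξ = b.q • ξ), C • vv b ι t x w α ξ = 0 := by
  obtain ⟨C₀, hC₀, hmain⟩ := prod_main.{u} b (expB α) (expA α) hn (fun j => (hα.exp b j).1)
    (fun j => (hα.exp b j).2.1) (fun j => (hα.exp b j).2.2)
  refine ⟨C₀ * ((b.N ^ (n + 1)).factorial) ^ 2,
    Nat.mul_pos hC₀ (pow_pos (Nat.factorial_pos _) 2), ?_⟩
  intro m F L _ _ _ ι r t a x h β hβ hβN σ hσ hσβ ξ hξ hd hσξ
  obtain ⟨B, z, hB0, hB, hzmap, hzdeg, hzunr, hzσ, hznew⟩ :=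
    exists_descent b (ι := ι) (any m) h hw α hσ hξ hd hσξ
  obtain ⟨M, _, _, t', x', y', i, hP, hE, hc1, ht1, hx1, κ, c, hκ0, hc, hc0, hσc, hW⟩ :=
    exists_embedding b h ι hα.1 hβ hβN hσ hσβ
  obtain ⟨σ', hσ'⟩ := hσ.exists_restrict b α
  have hKA : fieldK b F t x ≤ fieldA b F t x α := fieldK_le_fieldA b α
  have htA : ∀ k, t k ∈ fieldA b F t x α := fun k =>
    IntermediateField.subset_adjoin _ _ (Or.inl (Or.inl ⟨k, rfl⟩))
  have hUA : ∀ j, coordU b.N a x j ∈ fieldA b F t x α := fun j => hKA (coordU_mem b h j)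
  have hwA : wmon x α ∈ fieldA b F t x α := IntermediateField.subset_adjoin _ _ (Or.inr rfl)
  have hwne : wmon x α ≠ 0 := by
    unfold wmon
    exact Finset.prod_ne_zero_iff.mpr fun i _ => pow_ne_zero _ (h.x_ne b i)
  have hικ : algebraMap F L (ι κ) ≠ 0 :=
    (_root_.map_ne_zero _).mpr ((_root_.map_ne_zero _).mpr hκ0)
  -- the Frobenius
  have hrel : RelFrob b F t' x' y' (expB α) (expA α) i σ' := by
    refine ⟨?_, ?_, ?_, ?_⟩
    · intro d e he
      have h1 := (hc1 d e).mp he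
      apply Subtype.ext
      rw [hσ', h1, hσ.const, ← h1]
      rfl
    · intro k e he
      have h1 := (ht1 k e).mp he
      apply Subtype.ext
      rw [hσ', h1, hσ.ft]
    · intro j e he
      have h1 := (hx1 j e).mp he
      apply Subtype.ext
      rw [hσ', h1, hσ.coordU b j]
    · intro e he
      have h1 := (hW e).mp he
      apply Subtype.ext
      have h2 : σ (wmon x α) = wmon x α := by
        unfold wmon
        rw [map_prod]
        refine Finset.prod_congr rfl fun i _ => ?_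
        rw [map_pow, hσ.fx]
      have h3 : σ (algebraMap F L (ι κ)) = algebraMap F L (ι κ) := by
        rw [hσ.const, ← map_pow, ← map_pow, b.pow_q]
      rw [hσ', h1, map_mul, map_mul, h2, h3, hσc]
  -- the new classes
  have hnew : NewCls b F ι t' x' y' (expB α) (expA α) i z := by
    intro g k g1 g2 g3 g4 hk
    have hfix : ∀ e : fieldA b F t x α, (e : L) ∈ fieldK b F t x → g e = e :=
      D10_fix b h g (fun d e he => g1 d e ((hc1 d e).mpr he))
        (fun l e he => g2 l e ((ht1 l e).mpr he)) (fun j e he => g3 j e ((hx1 j e).mpr he))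
        htA hUA
    refine hznew g k hfix ?_ hk
    intro e he
    let eκ : fieldA b F t x α := algebraMap F _ (ι κ)
    let ec : fieldA b F t x α := ⟨c, hKA hc⟩
    let eζ : fieldA b F t x α := algebraMap F _ (ι b.ζ)
    have hmono : i (eκ * ec * e) = mono x' y' (expB α) (expA α) := by
      rw [hW]
      change algebraMap F L (ι κ) * c * (e : L) = _
      rw [he]
    have h1 := g4 _ hmono
    have h2 : i eζ = algebraMap F M (ι b.ζ) := (hc1 _ _).mpr rfl
    rw [← h2, ← hmono, ← map_pow, ← map_mul] at h1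
    have h3 := i.injective h1
    have h4 : g eκ = eκ := g1 (ι κ) _ ((hc1 _ _).mpr rfl)
    have h5 : g ec = ec := hfix _ hc
    rw [map_mul, map_mul, h4, h5] at h3
    have h6 : eκ * ec ≠ 0 := by
      refine mul_ne_zero ?_ ?_
      · intro h0
        exact hικ (congrArg (fun z : fieldA b F t x α => (z : L)) h0)
      · intro h0
        exact hc0 (congrArg (fun z : fieldA b F t x α => (z : L)) h0)
    have h7 : g e = eζ ^ k * e := by
      apply mul_left_cancel₀ h6
      rw [h3]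
      ring
    rw [h7]
    change algebraMap F L (ι b.ζ) ^ k * (e : L) = _
    rw [he]
  have hz0 := hmain m F M (fieldA b F t x α) ι r t' x' y' hP i hE σ' hrel z hzdeg hzunr hnew
    (hzσ σ' hσ')
  have h1 : C₀ • (B ^ 2 • vv b ι t x w α ξ) = 0 := by
    rw [← hzmap, ← map_nsmul, hz0, map_zero]
  obtain ⟨D, hD⟩ := Nat.dvd_factorial hB0 hB
  rw [hD, mul_pow, ← mul_assoc, mul_comm, mul_smul, mul_smul, h1, smul_zero]

end UnrG
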