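import Pool.Agent.Lib.MP_859dd5_ag.K.D10
import Pool.Agent.Lib.MP_859dd5_ag.Mg.G001

/-!
# The main theorem for the reduced Milnor K-ring
-/

namespace UnrG

universe u v w

open Polynomial Finset
open scoped Classical

variable {m : ℕ} {𝔽 : Type w} [Field 𝔽] [Fintype 𝔽] (b : Base 𝔽)

/-- **Main theorem** for the reduced Milnor K-ring. Proof: with `w` from `exists_weight`, let
`E = N ^ (n + 1) * N * ((N ^ (n + 1))!) ^ 2 * ∏ α (C α)`, `C α` from `vv_eq_zero_of_min` (`1` if `α` is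
not minimal). Every term of `sum_vv` is killed: by `vv_eq_zero_of_not_min`, by
`vv_eq_zero_of_inv` if `pair α h ≠ 0` for some `h ∈ H`, else by `vv_eq_zero_of_min`. -/
theorem main_reduced (n : ℕ) :
    ∃ E : ℕ, 0 < E ∧ ∀ (m : ℕ) (F L : Type u) [Field F] [Field L] [Algebra F L] (ι : 𝔽 →+* F)
      (_ : ∀ a : F, a ≠ 0 → ∃ n > 0, a ^ n = 1)
      (r : ℕ) (t : Fin r → L) (a x : Fin (n + 2) → L) (_ : DiagData b t (F := F) a x)
      (σ : L →+* L) (_ : SigmaL b F t a x σ) (H : Set (Fin (n + 2) → ZMod b.N))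
      (_ : ∀ α : Fin (n + 2) → ZMod b.N, MinZero α → (∀ h ∈ H, pair α h = 0) →
        (∃ β ∈ IntermediateField.adjoin F (Set.range t), σ β = β ∧
          ∏ i, a i ^ (α i).val = β ^ b.N) ∧
        (n = 4 → ∀ χ : MulChar 𝔽 ℂ, orderOf χ = b.N →
          ∏ j : Fin n, jacobiSum (χ ^ expB α j) (χ ^ expA α j) ≠ (b.q : ℂ) ^ 2))
      (ξ : KM m L) (_ : Unr ξ) (_ : ξ ∈ KM.deg m L 3) (_ : KM.map m σ ξ = b.q • ξ)
      (_ : ∀ h ∈ H, ∃ f : L →+* L, IsAdm b ι t x h f ∧ KM.map m f ξ = ξ), E • ξ = 0 := by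
  obtain ⟨w, hw⟩ := exists_weight b.two_le
  have key : ∀ α : Fin (n + 2) → ZMod b.N, ∃ C : ℕ, 0 < C ∧ (MinZero α →
      (n = 4 → ∀ χ : MulChar 𝔽 ℂ, orderOf χ = b.N →
        ∏ j : Fin n, jacobiSum (χ ^ expB α j) (χ ^ expA α j) ≠ (b.q : ℂ) ^ 2) →
      ∀ (m : ℕ) (F L : Type u) [Field F] [Field L] [Algebra F L] (ι : 𝔽 →+* F)
      (r : ℕ) (t : Fin r → L) (a x : Fin (n + 2) → L) (_ : DiagData b t (F := F) a x) (β : L)
      (_ : β ∈ IntermediateField.adjoin F (Set.range t))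
      (_ : ∏ i, a i ^ (α i).val = β ^ b.N) (σ : L →+* L) (_ : SigmaL b F t a x σ)
      (_ : σ β = β) (ξ : KM m L) (_ : Unr ξ) (_ : ξ ∈ KM.deg m L 3)
      (_ : KM.map m σ ξ = b.q • ξ), C • vv b ι t x w α ξ = 0) := by
    intro α
    by_cases hα : MinZero α ∧ (n = 4 → ∀ χ : MulChar 𝔽 ℂ, orderOf χ = b.N →
        ∏ j : Fin n, jacobiSum (χ ^ expB α j) (χ ^ expA α j) ≠ (b.q : ℂ) ^ 2)
    · obtain ⟨C, hC, hC'⟩ := vv_eq_zero_of_min.{u} b hw hα.1 hα.2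
      exact ⟨C, hC, fun _ _ => hC'⟩
    · exact ⟨1, one_pos, fun h h' => absurd ⟨h, h'⟩ hα⟩
  choose C hC0 hC using key
  refine ⟨b.N ^ (n + 1) * (b.N * ((b.N ^ (n + 1)).factorial) ^ 2 * ∏ α, C α),
    Nat.mul_pos (pow_pos b.N_pos _) (Nat.mul_pos (Nat.mul_pos b.N_pos
      (pow_pos (Nat.factorial_pos _) 2)) (Finset.prod_pos fun α _ => hC0 α)), ?_⟩
  intro m F L _ _ _ ι hF r t a x h σ hσ H hH ξ hξ hd hσξ hinv
  have hsum := sum_vv b (ι := ι) h hw ξ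
  have h1 : b.N ^ (n + 1) • ξ = ∑ e : Fin (n + 1) → ZMod b.N,
      vv b ι t x w (Fin.cons (-∑ j, e j) e) ξ := by
    rw [hsum]
    rw [← Nat.cast_pow, natCast_zsmul]
  rw [mul_comm, mul_smul, h1, Finset.smul_sum]
  refine Finset.sum_eq_zero fun e _ => ?_
  set α : Fin (n + 2) → ZMod b.N := Fin.cons (-∑ j, e j) e with hα
  have hα0 : ∑ i, α i = 0 := by
    rw [hα, Fin.sum_cons]
    ring
  by_cases hmin : MinZero α
  · by_cases hp : ∀ h ∈ H, pair α h = 0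
    · obtain ⟨⟨β, hβ, hσβ, hβN⟩, hjac⟩ := hH α hmin hp
      have h2 := hC α hmin hjac m F L ι r t a x h β hβ hβN σ hσ hσβ ξ hξ hd hσξ
      obtain ⟨D, hD⟩ := Finset.dvd_prod_of_mem C (Finset.mem_univ α)
      rw [hD, mul_comm (C α) D, ← mul_assoc, mul_smul, h2, smul_zero]
    · push Not at hp
      obtain ⟨h₀, hh₀, hk⟩ := hp
      obtain ⟨f, hf, hfξ⟩ := hinv h₀ hh₀
      have h2 := vv_eq_zero_of_inv b h hw hf hk hfξ
      rw [mul_assoc b.N, mul_comm b.N, mul_smul, h2, smul_zero]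
  · have h2 := vv_eq_zero_of_not_min b (ι := ι) (any m) h hF w hα0 hmin (by norm_num : 2 ≤ 3) hξ hd
    rw [mul_comm (b.N * _), ← mul_assoc, mul_smul, h2, smul_zero]

end UnrG
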