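import Pool.Agent.Lib.MP_859dd5_ag.Mg.G056
import Pool.Agent.Lib.MP_859dd5_ag.K.D11

/-!
# Statement of the main theorem: definitions
-/

namespace UnrG

universe u v w

open Polynomial Finset
open scoped Classical

/-- The function field of a diagonal hypersurface. `F` is a field, `t_1, …, t_r, x_1, …, x_n` are
algebraically independent over `F`, `x_0 = 1`, the `a_i` are nonzero elements of `F(t)`,
`∑_{i = 0}^{n + 1} a_i x_i ^ N = 0` and `L = F(t, x)`. -/
structure IsDiagonalHypersurface (N : ℕ) {F L : Type u} [Field F] [Field L] [Algebra F L]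
    {r n : ℕ} (t : Fin r → L) (a x : Fin (n + 2) → L) : Prop where
  coeff_mem : ∀ i, a i ∈ IntermediateField.adjoin F (Set.range t)
  coeff_ne : ∀ i, a i ≠ 0
  x_zero : x 0 = 1
  equation : ∑ i, a i * x i ^ N = 0
  independent : AlgebraicIndependent F (Sum.elim t (fun i : Fin n => x i.castSucc.succ))
  generate : IntermediateField.adjoin F (Set.range t ∪ Set.range x) = ⊤

/-- Minimal zero-sum sequences of length `l` in `ZMod N`: the sum is zero and no proper nonempty
partial sum vanishes. -/
def IsMinimalZeroSum {N l : ℕ} (α : Fin l → ZMod N) : Prop :=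
  ∑ i, α i = 0 ∧ ∀ I : Finset (Fin l), I.Nonempty → I ≠ univ → ∑ i ∈ I, α i ≠ 0

/-- The Jacobi sum of the characters `χ ^ α_0, …, χ ^ α_{n+1}`, as a product of Jacobi sums of two
characters. -/
noncomputable def jacobiProduct {K : Type} [Field K] [Fintype K] (χ : MulChar K ℂ) {N n : ℕ}
    (α : Fin (n + 2) → ZMod N) : ℂ :=
  ∏ j : Fin n, jacobiSum
    (χ ^ (∑ i ∈ univ.filter (fun i => i ≤ j.castSucc.castSucc), α i).val)
    (χ ^ (α j.castSucc.succ).val)

end UnrG
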