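import Pool.Agent.Lib.MP_859dd5_ag.Mg.G068

/-!
# Algebraic closures of finite fields
-/

namespace UnrG

universe u v w

open Polynomial Finset
open scoped Classical

/-- Hint: both fields have the same characteristic `p` (`card 𝔽' = card 𝔽 ^ s` is a power of the
characteristic of `𝔽`, `FiniteField.card`); make both algebras over `ZMod p`, `IsAlgClosed.lift`. -/
theorem exists_embedding_of_card (𝔽 : Type) [Field 𝔽] [Fintype 𝔽] (𝔽' : Type) [Field 𝔽']
    [Fintype 𝔽'] {s : ℕ} (hs : 0 < s) (h : Fintype.card 𝔽' = Fintype.card 𝔽 ^ s)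
    (F : Type u) [Field F] [Algebra 𝔽 F] [IsAlgClosed F] : Nonempty (𝔽' →+* F) := by
  obtain ⟨p, hp⟩ := CharP.exists 𝔽
  obtain ⟨p', hp'⟩ := CharP.exists 𝔽'
  obtain ⟨n, hpr, hc⟩ := FiniteField.card 𝔽 p
  obtain ⟨n', hpr', hc'⟩ := FiniteField.card 𝔽' p'
  have hpp : p' = p := by
    have h1 : p' ^ (n' : ℕ) = p ^ ((n : ℕ) * s) := by
      rw [← hc', h, hc, pow_mul]
    have h2 : p' ∣ p ^ ((n : ℕ) * s) := by
      rw [← h1]
      exact dvd_pow_self _ n'.pos.ne'
    exact (Nat.prime_dvd_prime_iff_eq hpr' hpr).1 (hpr'.dvd_of_dvd_pow h2)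
  subst hpp
  haveI : Fact p'.Prime := ⟨hpr'⟩
  haveI : CharP F p' := charP_of_injective_algebraMap (algebraMap 𝔽 F).injective p'
  letI : Algebra (ZMod p') 𝔽' := ZMod.algebra 𝔽' p'
  letI : Algebra (ZMod p') F := ZMod.algebra F p'
  haveI : Module.Finite (ZMod p') 𝔽' := Module.Finite.of_finite
  exact ⟨(IsAlgClosed.lift (R := ZMod p') (S := 𝔽') (M := F)).toRingHom⟩

/-- Hint: `c` generates a finite extension of the finite field `𝔽`. -/
theorem exists_pow_eq_one_of_algebraic (𝔽 : Type) [Field 𝔽] [Fintype 𝔽] (F : Type u) [Field F]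
    [Algebra 𝔽 F] [Algebra.IsAlgebraic 𝔽 F] (c : F) (hc : c ≠ 0) : ∃ l > 0, c ^ l = 1 := by
  have hint : IsIntegral 𝔽 c := (Algebra.IsAlgebraic.isAlgebraic (R := 𝔽) c).isIntegral
  haveI : FiniteDimensional 𝔽 (IntermediateField.adjoin 𝔽 {c}) :=
    IntermediateField.adjoin.finiteDimensional hint
  haveI : Finite (IntermediateField.adjoin 𝔽 {c}) := Module.finite_of_finite 𝔽
  set x : IntermediateField.adjoin 𝔽 {c} := ⟨c, IntermediateField.mem_adjoin_simple_self 𝔽 c⟩
    with hx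
  have hx0 : x ≠ 0 := by
    intro h0
    exact hc (congrArg Subtype.val h0)
  have hfo := isOfFinOrder_of_finite (Units.mk0 x hx0)
  obtain ⟨l, hl, hl1⟩ := isOfFinOrder_iff_pow_eq_one.1 hfo
  refine ⟨l, hl, ?_⟩
  have h1 := congrArg (fun u : (IntermediateField.adjoin 𝔽 {c})ˣ => ((u :
    IntermediateField.adjoin 𝔽 {c}) : F)) hl1
  simpa using h1

lemma sigma_pow_const {F L : Type u} [Field F] [Field L] [Algebra F L] {q : ℕ} {σ : L →+* L}
    (hσ : ∀ c : F, σ (algebraMap F L c) = algebraMap F L c ^ q) (s : ℕ) (c : F) :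
    (σ ^ s) (algebraMap F L c) = algebraMap F L c ^ (q ^ s) := by
  induction s with
  | zero => simp
  | succ s ih =>
    rw [pow_succ', RingHom.mul_def, RingHom.comp_apply, ih, map_pow, hσ, ← pow_mul, ← pow_succ']

lemma sigma_pow_fix {L : Type u} [Field L] {σ : L →+* L} {z : L} (h : σ z = z) (s : ℕ) :
    (σ ^ s) z = z := by
  induction s with
  | zero => simp
  | succ s ih => rw [pow_succ', RingHom.mul_def, RingHom.comp_apply, ih, h]

/-- Hint: `(σ β) ^ N = β ^ N`, so `σ β = ω β` with `ω ^ N = 1`, and `ω` is the image of a power of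
`ζ`, so `σ ω = ω ^ q` and `(σ ^ s) β = ω ^ (∑ i < s, q ^ i) β` (induction on `s`). -/
theorem sigma_pow_root {F L : Type u} [Field F] [Field L] [Algebra F L] {N q s : ℕ} (hN : 0 < N)
    {ζ : F} (hζ : IsPrimitiveRoot ζ N) {σ : L →+* L}
    (hσ : ∀ c : F, σ (algebraMap F L c) = algebraMap F L c ^ q) {β : L}
    (hβ : σ (β ^ N) = β ^ N) (hs : N ∣ ∑ i ∈ range s, q ^ i) : (σ ^ s) β = β := by
  by_cases h0 : β = 0
  · rw [h0, map_zero]
  have hζ' : IsPrimitiveRoot (algebraMap F L ζ) N :=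
    hζ.map_of_injective (algebraMap F L).injective
  have hω : (σ β / β) ^ N = 1 := by
    rw [div_pow, ← map_pow, hβ, div_self (pow_ne_zero _ h0)]
  haveI : NeZero N := ⟨hN.ne'⟩
  obtain ⟨i, -, hi⟩ := hζ'.eq_pow_of_pow_eq_one hω
  set ω : F := ζ ^ i with hωd
  have hσβ : σ β = algebraMap F L ω * β := by
    rw [hωd, map_pow, hi, div_mul_cancel₀ _ h0]
  have key : ∀ k : ℕ, (σ ^ k) β = algebraMap F L ω ^ (∑ i ∈ range k, q ^ i) * β := by
    intro k
    induction k with
    | zero => simp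
    | succ k ih =>
      rw [pow_succ', RingHom.mul_def, RingHom.comp_apply, ih, map_mul, map_pow, hσ, hσβ,
        ← pow_mul, ← mul_assoc, ← pow_succ]
      congr 2
      rw [Finset.sum_range_succ', Finset.mul_sum, pow_zero]
      congr 1
      exact Finset.sum_congr rfl fun j _ => by rw [pow_succ']
  rw [key s]
  obtain ⟨t, ht⟩ := hs
  have hωN : algebraMap F L ω ^ N = 1 := by
    rw [hωd, map_pow, ← pow_mul, mul_comm, pow_mul, hζ'.pow_eq_one, one_pow]
  rw [ht, pow_mul, hωN, one_pow, one_mul]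

end UnrG
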