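import Pool.Agent.Lib.MP_859dd5_ag.K.I4

/-!
# The main theorem over all algebraic extensions of a finite field of constants
-/

namespace UnrG

universe u v w

open Polynomial Finset
open scoped Classical

/-- A field with a primitive root of unity of order `q ^ s - 1`, algebraic over the field with `q`
elements, contains the field with `q ^ s` elements. -/
theorem exists_embedding_of_root (𝔽 : Type) [Field 𝔽] [Fintype 𝔽] (𝔽' : Type) [Field 𝔽']
    [Fintype 𝔽'] {s : ℕ} (h : Fintype.card 𝔽' = Fintype.card 𝔽 ^ s)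
    (F : Type u) [Field F] [Algebra 𝔽 F] (ω : F)
    (hω : IsPrimitiveRoot ω (Fintype.card 𝔽 ^ s - 1)) : Nonempty (𝔽' →+* F) := by
  obtain ⟨p, hp⟩ := CharP.exists 𝔽
  obtain ⟨p', hp'⟩ := CharP.exists 𝔽'
  obtain ⟨n, hpr, hc⟩ := FiniteField.card 𝔽 p
  obtain ⟨n', hpr', hc'⟩ := FiniteField.card 𝔽' p'
  have hpp : p' = p := by
    have h1 : p' ^ (n' : ℕ) = p ^ ((n : ℕ) * s) := by
      rw [← hc', h, hc, pow_mul]
    have h2 : p' ∣ p ^ ((n : ℕ) * s) := by
      rw [← h1]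
      exact dvd_pow_self _ n'.pos.ne'
    exact (Nat.prime_dvd_prime_iff_eq hpr' hpr).1 (hpr'.dvd_of_dvd_pow h2)
  subst hpp
  haveI : Fact p'.Prime := ⟨hpr'⟩
  haveI : CharP F p' := charP_of_injective_algebraMap (algebraMap 𝔽 F).injective p'
  letI : Algebra (ZMod p') 𝔽' := ZMod.algebra 𝔽' p'
  letI : Algebra (ZMod p') F := ZMod.algebra F p'
  haveI : Module.Finite (ZMod p') 𝔽' := Module.Finite.of_finite
  obtain ⟨Q, hQ⟩ : ∃ Q : ℕ, Q = Fintype.card 𝔽' := ⟨_, rfl⟩
  have hQ1 : 1 < Q := by rw [hQ]; exact Fintype.one_lt_card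
  have hω' : IsPrimitiveRoot ω (Q - 1) := by rw [hQ, h]; exact hω
  -- the polynomial `X ^ Q - X` splits in `F`
  have hfac : (X ^ Q - X : F[X]) = X * ∏ ζ ∈ nthRootsFinset (Q - 1) (1 : F), (X - C ζ) := by
    have h1 : (X ^ (Q - 1) - 1 : F[X]) = ∏ ζ ∈ nthRootsFinset (Q - 1) (1 : F), (X - C ζ) :=
      X_pow_sub_one_eq_prod (by omega) hω'
    rw [← h1, mul_sub, mul_one, ← pow_succ', Nat.sub_add_cancel hQ1.le]
  have hsplit : Splits (((X ^ Q - X : (ZMod p')[X])).map (algebraMap (ZMod p') F)) := by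
    rw [Polynomial.map_sub, Polynomial.map_pow, Polynomial.map_X, hfac]
    refine Splits.X.mul (Splits.prod fun ζ _ => ?_)
    exact Splits.X_sub_C ζ
  haveI : IsSplittingField (ZMod p') 𝔽' (X ^ Q - X) := by
    rw [hQ]
    exact FiniteField.isSplittingField_sub 𝔽' (ZMod p')
  exact ⟨(IsSplittingField.lift 𝔽' (X ^ Q - X) hsplit).toRingHom⟩

private lemma I5_map_pow {m : ℕ} {L : Type u} [Field L] {q : ℕ} {σ : L →+* L} {η : KM m L}
    (h : KM.map m σ η = q • η) (s : ℕ) : KM.map m (σ ^ s) η = q ^ s • η := by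
  induction s with
  | zero =>
    rw [pow_zero, pow_zero, one_smul]
    exact congrArg (fun g : KM m L →ₐ[ZMod m] KM m L => g η) (KM.map_id (m := m) (K := L))
  | succ s ih =>
    have h1 : KM.map m (σ ^ (s + 1)) η = KM.map m (σ ^ s) (KM.map m σ η) := by
      rw [KM.map_map]
      rfl
    rw [h1, h, map_nsmul, ih, smul_smul, pow_succ, mul_comm]

private lemma I5_pow_val {N : ℕ} [NeZero N] {F : Type u} [Field F] {z : F}
    (hz : z ^ N = 1) (c : ZMod N) (w : ℕ) : (z ^ w) ^ c.val = z ^ (w • c).val := by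
  rw [← pow_mul]
  have h1 : ((w * c.val : ℕ) : ZMod N) = ((w • c).val : ℕ) := by
    rw [Nat.cast_mul, ZMod.natCast_zmod_val, ZMod.natCast_zmod_val, nsmul_eq_mul]
  have h2 := (ZMod.natCast_eq_natCast_iff' _ _ _).1 h1
  rw [← Nat.div_add_mod (w * c.val) N, ← Nat.div_add_mod ((w • c).val) N, pow_add, pow_add,
    pow_mul, pow_mul, hz, one_pow, one_pow, h2]

/-- **Main theorem.** Classes of degree three on varieties dominated by diagonal hypersurfaces, over
an arbitrary algebraic extension `F` of `𝔽` which contains the extension of degree `s`. -/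
theorem main_dominated_ext (𝔽 : Type) [Field 𝔽] [Fintype 𝔽] (N n : ℕ) (hN : 2 ≤ N)
    (hq : (Fintype.card 𝔽).Coprime N) :
    ∃ E s : ℕ, 0 < E ∧ 0 < s ∧ ∀ (m : ℕ) (F K L : Type u) [Field F] [Field K] [Field L]
      [Algebra 𝔽 F] [Algebra.IsAlgebraic 𝔽 F] [Algebra F L] [Algebra K L]
      [FiniteDimensional K L] (ω : F) (_ : IsPrimitiveRoot ω (Fintype.card 𝔽 ^ s - 1))
      (r : ℕ) (t : Fin r → L) (a x : Fin (n + 2) → L)
      (_ : IsDiagonalHypersurface N (F := F) t a x)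
      (σ : L →+* L) (_ : ∀ c : F, σ (algebraMap F L c) = algebraMap F L c ^ Fintype.card 𝔽)
      (_ : ∀ i, σ (t i) = t i) (_ : ∀ i, σ (a i) = a i) (_ : ∀ i, σ (x i) = x i)
      (σK : K →+* K) (_ : ∀ z : K, σ (algebraMap K L z) = algebraMap K L (σK z))
      (ζ : F) (_ : IsPrimitiveRoot ζ N)
      (_ : ∀ α : Fin (n + 2) → ZMod N, IsMinimalZeroSum α →
        (∀ (h : Fin (n + 2) → ZMod N) (f : L →+* L),
          (∀ c : F, f (algebraMap F L c) = algebraMap F L c) → (∀ i, f (t i) = t i) →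
          (∀ i, f (x i) = algebraMap F L ζ ^ (h i).val * x i) →
          (∀ z : K, f (algebraMap K L z) = algebraMap K L z) → ∑ i, α i * h i = 0) →
        (∃ β ∈ IntermediateField.adjoin F (Set.range t), ∏ i, a i ^ (α i).val = β ^ N) ∧
        (n = 4 → ∀ (b : ℕ) (k : Type) [Field k] [Fintype k] (χ : MulChar k ℂ),
          Fintype.card k = Fintype.card 𝔽 ^ b → orderOf χ = N →
            jacobiProduct χ α ≠ (Fintype.card k : ℂ) ^ 2))
      (ξ : MK m K) (_ : MK.Unr ξ) (_ : ξ ∈ MK.deg m K 3)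
      (_ : MK.map m σK ξ = Fintype.card 𝔽 • ξ), (E * Module.finrank K L) • ξ = 0 := by
  obtain ⟨s, 𝔽', _, _, b, hs, rfl, hcard, hsum⟩ := exists_base_extension 𝔽 hN hq
  obtain ⟨E₀, hE₀, hE⟩ := main_reduced.{u} b n
  refine ⟨2 * E₀, s, by positivity, hs, ?_⟩
  intro m F K L _ _ _ _ _ _ _ _ ω hω r t a x hX σ hσ hσt hσa hσx σK hσK ζ hζ hH ξ hξ hd hσξ
  obtain ⟨ι⟩ := exists_embedding_of_root 𝔽 𝔽' hcard F ω hω
  have hbq : b.q = Fintype.card 𝔽 ^ s := by rw [← b.card_q, hcard]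
  have hζ' := b.hζ_map ι
  obtain ⟨u, _, hu, huζ⟩ := hζ'.isPrimitiveRoot_iff.1 hζ
  obtain ⟨η, hη⟩ : ∃ η, η = KM.map m (algebraMap K L) (MK.red m K ξ) := ⟨_, rfl⟩
  have hmap : KM.map m σ η = Fintype.card 𝔽 • η := by
    have h1 : σ.comp (algebraMap K L) = (algebraMap K L).comp σK := RingHom.ext hσK
    rw [hη, KM.map_map, h1, ← KM.map_map, ← MK.red_map, hσξ, map_nsmul, map_nsmul]
  have hηu : Unr η := by rw [hη]; exact (MK.red_unr hξ).map _
  have hηd : η ∈ KM.deg m L 3 := by rw [hη]; exact KM.deg_map _ (MK.red_deg hd)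
  have hres : E₀ • η = 0 := by
    refine hE m F L ι (exists_pow_eq_one_of_algebraic 𝔽 F) r t a x
      ⟨hX.coeff_mem, hX.coeff_ne, hX.x_zero, hX.equation, hX.independent, hX.generate⟩ (σ ^ s)
      ⟨?_, fun i => sigma_pow_fix (hσt i) s, fun i => sigma_pow_fix (hσa i) s,
        fun i => sigma_pow_fix (hσx i) s⟩
      {h' | ∃ h : Fin (n + 2) → ZMod b.N, h' = u • h ∧ ∃ f : L →+* L,
        (∀ c : F, f (algebraMap F L c) = algebraMap F L c) ∧ (∀ i, f (t i) = t i) ∧
        (∀ i, f (x i) = algebraMap F L ζ ^ (h i).val * x i) ∧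
        ∀ z : K, f (algebraMap K L z) = algebraMap K L z} ?_ η hηu hηd ?_ ?_
    · intro c
      rw [sigma_pow_const hσ s c, hbq]
    · intro α hα hp
      obtain ⟨⟨β, hβ, hβN⟩, hjac⟩ := hH α hα (by
        intro h f hf1 hf2 hf3 hf4
        have h1 : pair α (u • h) = 0 := hp _ ⟨h, rfl, f, hf1, hf2, hf3, hf4⟩
        have h2 : pair α (u • h) = (u : ZMod b.N) * ∑ i, α i * h i := by
          unfold pair
          rw [Finset.mul_sum]
          refine Finset.sum_congr rfl fun i _ => ?_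
          rw [Pi.smul_apply, nsmul_eq_mul]
          ring
        rw [h2] at h1
        have h3 : IsUnit (u : ZMod b.N) := (ZMod.isUnit_iff_coprime u b.N).2 hu
        exact (h3.mul_right_eq_zero).1 h1)
      refine ⟨⟨β, hβ, ?_, hβN⟩, ?_⟩
      · refine sigma_pow_root b.N_pos hζ' hσ ?_ hsum
        rw [← hβN, map_prod]
        refine Finset.prod_congr rfl fun i _ => ?_
        rw [map_pow, hσa]
      · intro hn χ hχ
        have h1 := hjac hn s 𝔽' χ hcard hχ
        rw [b.card_q] at h1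
        exact h1
    · rw [I5_map_pow hmap s, hbq]
    · rintro _ ⟨h, rfl, f, hf1, hf2, hf3, hf4⟩
      refine ⟨f, ⟨hf1, hf2, ?_⟩, ?_⟩
      · intro i
        have hone : (algebraMap F L (ι b.ζ)) ^ b.N = 1 := by
          rw [← map_pow, hζ'.pow_eq_one, map_one]
        rw [hf3, ← huζ, map_pow, I5_pow_val hone (h i) u]
        rfl
      · have h1 : f.comp (algebraMap K L) = algebraMap K L := RingHom.ext hf4
        rw [hη, KM.map_map, h1]
  have h2 : Module.finrank K L • (E₀ • MK.red m K ξ) = 0 := by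
    refine finrank_smul_eq_zero (any m) _ (K := K) (L := L) rfl ?_
    rw [map_nsmul, ← hη, hres]
  have h3 : (2 * E₀) * Module.finrank K L = 2 * (Module.finrank K L * E₀) := by ring
  rw [h3, mul_smul]
  refine MK.two_smul_eq_zero ?_
  rw [mul_smul, map_nsmul, map_nsmul, h2]

end UnrG
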